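import Pool.Agent.H49.KT.UTargets

/-!
# Third pass of an interpreted step: finding the entry
-/

namespace Pool.Agent.H33.KT

open Turing Function
open Pool.Agent.H49.KT Pool.Agent.H49.KT.Uni
open Tok

/-- the relevant part of the state: mode and the stacks `q`, `x`, `w`, `rr` -/
structure A3 where
  m : Fin 5
  q : List Tok
  x : List Tok
  w : List Tok
  r : List Tok

/-- the stacks -/
def zz (z : Nw → List Tok) (p : List Tok) (s : A3) : Nw → List Tok
  | .prg' => p
  | .q => s.q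
  | .x => s.x
  | .w => s.w
  | .rr => s.r
  | k => z k

theorem zz_p (z : Nw → List Tok) (p p' : List Tok) (s : A3) :
    update (zz z p s) .prg' p' = zz z p' s := by
  funext k
  cases k <;> simp [update, zz]

theorem zz_q (z : Nw → List Tok) (p l : List Tok) (s : A3) :
    update (zz z p s) .q l = zz z p ⟨s.m, l, s.x, s.w, s.r⟩ := by
  funext k
  cases k <;> simp [update, zz]

theorem zz_x (z : Nw → List Tok) (p l : List Tok) (s : A3) :
    update (zz z p s) .x l = zz z p ⟨s.m, s.q, l, s.w, s.r⟩ := by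
  funext k
  cases k <;> simp [update, zz]

theorem zz_w (z : Nw → List Tok) (p l : List Tok) (s : A3) :
    update (zz z p s) .w l = zz z p ⟨s.m, s.q, s.x, l, s.r⟩ := by
  funext k
  cases k <;> simp [update, zz]

theorem zz_r (z : Nw → List Tok) (p l : List Tok) (s : A3) :
    update (zz z p s) .rr l = zz z p ⟨s.m, s.q, s.x, s.w, l⟩ := by
  funext k
  cases k <;> simp [update, zz]

theorem zz_m (z : Nw → List Tok) (p : List Tok) (s : A3) (m : Fin 5) :
    zz z p ⟨m, s.q, s.x, s.w, s.r⟩ = zz z p s := by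
  funext k
  cases k <;> simp [zz]

/-- the main part of the body -/
def inner3 : C2 :=
  (.ite (fun v => v.r == tb)
    (.seq (popg .q) (.ite (fun v => v.g) skip (.ite (fun v => v.mode == 0) (smode 1) (smode 4))))
    (.ite (fun v => v.r == te)
      (.ite (fun v => v.mode == 1) (.seq (popg .x) (.ite (fun v => v.g) skip (smode 2)))
        (.ite (fun v => v.mode == 2 || v.mode == 3) (smode 4) skip))
      (.ite (fun v => v.r == tn) (.ite (fun v => v.mode == 2) (smode 3) skip)
        (.ite (fun v => v.mode == 2) (pushr .w) (.ite (fun v => v.mode == 3) (pushr .rr) skip)))))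

theorem body3_eq : body3 = .seq inner3 (pushr .prg') := rfl

variable (u : IO → List Bool) (z : Nw → List Tok)

/-- one token -/
def T1 (a : Tok) (s s' : A3) : Prop :=
  ∀ (v : Me) (p : List Tok), v.mode = s.m → ∃ v' : Me, v'.ng = v.ng ∧ v'.mode = s'.m ∧
    Spec body3 (mk2 (v.sr a) u (zz z p s)) (mk2 v' u (zz z (a :: p) s')) 8

theorem T1.of {a : Tok} {s s' : A3}
    (h : ∀ (v : Me) (p : List Tok), v.mode = s.m → v.r = a → ∃ v' : Me, v'.ng = v.ng ∧
      v'.mode = s'.m ∧ v'.r = a ∧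
      Spec inner3 (mk2 v u (zz z p s)) (mk2 v' u (zz z p s')) 7) : T1 u z a s s' := by
  intro v p hv
  obtain ⟨v', h1, h2, h3, h4⟩ := h (v.sr a) p hv rfl
  refine ⟨v', h1, h2, ?_⟩
  rw [body3_eq]
  have h5 := sp_pushr v' u (zz z p s') .prg'
  rw [zz_p, h3] at h5
  exact h4.seq h5

/-- tokens without effect -/
theorem T1.noop (a : Tok) (s : A3) (ha : a ≠ tb) (hm : (s.m = 0 ∨ s.m = 4) ∨ (s.m = 1 ∧ a ≠ te)) :
    T1 u z a s s := by
  apply T1.of
  intro v p hv hr
  refine ⟨v, rfl, hv, hr, ?_⟩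
  have h2 : (v.mode == 2) = false := by
    rw [hv]; rcases hm with (h | h) | h
    · rw [h]; rfl
    · rw [h]; rfl
    · rw [h.1]; rfl
  have h3 : (v.mode == 3) = false := by
    rw [hv]; rcases hm with (h | h) | h
    · rw [h]; rfl
    · rw [h]; rfl
    · rw [h.1]; rfl
  have htb : (v.r == tb) = false := by rw [hr]; simpa using ha
  by_cases h4 : a = te
  · have h1 : (v.mode == 1) = false := by
      rw [hv]; rcases hm with (h | h) | h
      · rw [h]; rfl
      · rw [h]; rfl
      · exact absurd h4 h.2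
    exact (Spec.ite_f htb (Spec.ite_t (by simp [hr, h4]) (Spec.ite_f h1
      (Spec.ite_f (by simp [h2, h3]) (sp_skip v u _))))).mono (by norm_num)
  · have hte : (v.r == te) = false := by rw [hr]; simpa using h4
    by_cases h5 : a = tn
    · exact (Spec.ite_f htb (Spec.ite_f hte (Spec.ite_t (by simp [hr, h5]) (Spec.ite_f h2
        (sp_skip v u _))))).mono (by norm_num)
    · have htn : (v.r == tn) = false := by rw [hr]; simpa using h5
      exact (Spec.ite_f htb (Spec.ite_f hte (Spec.ite_f htn (Spec.ite_f h2 (Spec.ite_f h3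
        (sp_skip v u _)))))).mono (by norm_num)

/-- a block is skipped -/
theorem T1.tb0 (s : A3) (hm : s.m = 0) (k : ℕ) (hq : s.q = us (k + 1)) :
    T1 u z tb s ⟨0, us k, s.x, s.w, s.r⟩ := by
  apply T1.of
  intro v p hv hr
  have h1 := sp_popg v u (zz z p s) .q
  rw [zz_q] at h1
  have e : zz z p s .q = s.q := rfl
  rw [e, hq, hm] at h1
  exact ⟨v.sg (us (k + 1)).head?.isSome, rfl, hv.trans hm, hr, (Spec.ite_t (by simp [hr])
    (h1.seq (Spec.ite_t rfl (sp_skip _ u _)))).mono (by norm_num)⟩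

/-- the block is found -/
theorem T1.tb1 (s : A3) (hm : s.m = 0) (hq : s.q = []) :
    T1 u z tb s ⟨1, s.q, s.x, s.w, s.r⟩ := by
  apply T1.of
  intro v p hv hr
  have h1 := sp_popg v u (zz z p s) .q
  rw [zz_q] at h1
  have e : zz z p s .q = s.q := rfl
  rw [e, hq, zz_m] at h1
  rw [hq, zz_m]
  refine ⟨(v.sg ([] : List Tok).head?.isSome).sm 1, rfl, rfl, hr, ?_⟩
  refine (Spec.ite_t (by simp [hr]) (h1.seq (Spec.ite_f rfl (Spec.ite_t ?_
    (sp_smode _ u _ 1))))).mono (by norm_num)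
  simp [hv, hm]

/-- a block after the entry -/
theorem T1.tb4 (s : A3) (hm : s.m = 3 ∨ s.m = 4) (hq : s.q = []) :
    T1 u z tb s ⟨4, s.q, s.x, s.w, s.r⟩ := by
  apply T1.of
  intro v p hv hr
  have h1 := sp_popg v u (zz z p s) .q
  rw [zz_q] at h1
  have e : zz z p s .q = s.q := rfl
  rw [e, hq, zz_m] at h1
  rw [hq, zz_m]
  refine ⟨(v.sg ([] : List Tok).head?.isSome).sm 4, rfl, rfl, hr, ?_⟩
  refine (Spec.ite_t (by simp [hr]) (h1.seq (Spec.ite_f rfl (Spec.ite_f ?_
    (sp_smode _ u _ 4))))).mono (by norm_num)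
  rcases hm with h | h <;> simp [hv, h]

/-- an entry is skipped -/
theorem T1.te1 (s : A3) (hm : s.m = 1) (k : ℕ) (hx : s.x = us (k + 1)) :
    T1 u z te s ⟨1, s.q, us k, s.w, s.r⟩ := by
  apply T1.of
  intro v p hv hr
  have h1 := sp_popg v u (zz z p s) .x
  rw [zz_x] at h1
  have e : zz z p s .x = s.x := rfl
  rw [e, hx, hm] at h1
  exact ⟨v.sg (us (k + 1)).head?.isSome, rfl, hv.trans hm, hr, (Spec.ite_f (by simp [hr])
    (Spec.ite_t (by simp [hr]) (Spec.ite_t (by simp [hv, hm]) (h1.seq (Spec.ite_t rfl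
      (sp_skip _ u _)))))).mono (by norm_num)⟩

/-- the entry is found -/
theorem T1.te2 (s : A3) (hm : s.m = 1) (hx : s.x = []) :
    T1 u z te s ⟨2, s.q, s.x, s.w, s.r⟩ := by
  apply T1.of
  intro v p hv hr
  have h1 := sp_popg v u (zz z p s) .x
  rw [zz_x] at h1
  have e : zz z p s .x = s.x := rfl
  rw [e, hx, zz_m] at h1
  rw [hx, zz_m]
  exact ⟨(v.sg ([] : List Tok).head?.isSome).sm 2, rfl, rfl, hr, (Spec.ite_f (by simp [hr])
    (Spec.ite_t (by simp [hr]) (Spec.ite_t (by simp [hv, hm]) (h1.seq (Spec.ite_f rfl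
      (sp_smode _ u _ 2)))))).mono (by norm_num)⟩

/-- an entry after the entry -/
theorem T1.te4 (s : A3) (hm : s.m = 3) : T1 u z te s ⟨4, s.q, s.x, s.w, s.r⟩ := by
  apply T1.of
  intro v p hv hr
  rw [zz_m]
  exact ⟨v.sm 4, rfl, rfl, hr, (Spec.ite_f (by simp [hr])
    (Spec.ite_t (by simp [hr]) (Spec.ite_f (by simp [hv, hm]) (Spec.ite_t (by simp [hv, hm])
      (sp_smode _ u _ 4))))).mono (by norm_num)⟩

/-- the text of the new symbols is complete -/
theorem T1.tn3 (s : A3) (hm : s.m = 2) : T1 u z tn s ⟨3, s.q, s.x, s.w, s.r⟩ := by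
  apply T1.of
  intro v p hv hr
  rw [zz_m]
  exact ⟨v.sm 3, rfl, rfl, hr, (Spec.ite_f (by simp [hr])
    (Spec.ite_f (by simp [hr]) (Spec.ite_t (by simp [hr]) (Spec.ite_t (by simp [hv, hm])
      (sp_smode _ u _ 3))))).mono (by norm_num)⟩

/-- a token of the new symbols -/
theorem T1.w2 (a : Tok) (ha : a = t1 ∨ a = tc) (s : A3) (hm : s.m = 2) :
    T1 u z a s ⟨2, s.q, s.x, a :: s.w, s.r⟩ := by
  apply T1.of
  intro v p hv hr
  have h1 := sp_pushr v u (zz z p s) .w
  rw [zz_w] at h1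
  have e : zz z p s .w = s.w := rfl
  rw [e, hr, hm] at h1
  refine ⟨v, rfl, hv.trans hm, hr, (Spec.ite_f ?_ (Spec.ite_f ?_ (Spec.ite_f ?_
    (Spec.ite_t ?_ h1)))).mono (by norm_num)⟩
  · rcases ha with h | h <;> simp [hr, h]
  · rcases ha with h | h <;> simp [hr, h]
  · rcases ha with h | h <;> simp [hr, h]
  · simp [hv, hm]

/-- a token of the new state -/
theorem T1.r3 (s : A3) (hm : s.m = 3) :
    T1 u z t1 s ⟨3, s.q, s.x, s.w, t1 :: s.r⟩ := by
  apply T1.of
  intro v p hv hr
  have h1 := sp_pushr v u (zz z p s) .rr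
  rw [zz_r] at h1
  have e : zz z p s .rr = s.r := rfl
  rw [e, hr, hm] at h1
  exact ⟨v, rfl, hv.trans hm, hr, (Spec.ite_f (by simp [hr]) (Spec.ite_f (by simp [hr])
    (Spec.ite_f (by simp [hr]) (Spec.ite_f (by simp [hv, hm]) (Spec.ite_t (by simp [hv, hm])
      h1))))).mono (by norm_num)⟩

/-- a piece of text -/
def SG (l : List Tok) (s s' : A3) : Prop :=
  ∀ (v : Me) (p : List Tok), v.mode = s.m → ∃ v' : Me, v'.ng = v.ng ∧ v'.mode = s'.m ∧
    Seg body3 l (mk2 v u (zz z p s)) (mk2 v' u (zz z (l.reverse ++ p) s')) (9 * l.length)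

theorem SG.nil (s : A3) : SG u z [] s s := fun v p hv => ⟨v, rfl, hv, Seg.nil _ _⟩

theorem SG.cons {a : Tok} {l : List Tok} {s s' s'' : A3} (h : T1 u z a s s')
    (h' : SG u z l s' s'') : SG u z (a :: l) s s'' := by
  intro v p hv
  obtain ⟨v', h1, h2, h3⟩ := h v p hv
  obtain ⟨v'', h4, h5, h6⟩ := h' v' (a :: p) h2
  refine ⟨v'', h4.trans h1, h5, ?_⟩
  have e : (a :: l).reverse ++ p = l.reverse ++ a :: p := by simp
  rw [e]
  exact (Seg.cons h3 h6).mono (by simp only [List.length_cons]; omega)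

theorem SG.append {l l' : List Tok} {s s' s'' : A3} (h : SG u z l s s')
    (h' : SG u z l' s' s'') : SG u z (l ++ l') s s'' := by
  intro v p hv
  obtain ⟨v', h1, h2, h3⟩ := h v p hv
  obtain ⟨v'', h4, h5, h6⟩ := h' v' (l.reverse ++ p) h2
  refine ⟨v'', h4.trans h1, h5, ?_⟩
  have e : (l ++ l').reverse ++ p = l'.reverse ++ (l.reverse ++ p) := by simp
  rw [e]
  exact (h3.append h6).mono (by simp only [List.length_append]; omega)

theorem SG.noop (l : List Tok) (s : A3)
    (h : ∀ a ∈ l, a ≠ tb ∧ ((s.m = 0 ∨ s.m = 4) ∨ (s.m = 1 ∧ a ≠ te))) : SG u z l s s := by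
  induction l with
  | nil => exact SG.nil u z s
  | cons a l ih =>
    exact SG.cons u z (T1.noop u z a s (h a List.mem_cons_self).1 (h a List.mem_cons_self).2)
      (ih fun b hb => h b (List.mem_cons_of_mem _ hb))

/-- mode 4 -/
theorem SG.four (l : List Tok) (s : A3) (hm : s.m = 4) (hq : s.q = []) : SG u z l s s := by
  induction l with
  | nil => exact SG.nil u z s
  | cons a l ih =>
    by_cases ha : a = tb
    · subst ha
      have h1 := T1.tb4 u z s (Or.inr hm) hq
      have e : (⟨4, s.q, s.x, s.w, s.r⟩ : A3) = s := by rw [← hm]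
      rw [e] at h1
      exact SG.cons u z h1 ih
    · exact SG.cons u z (T1.noop u z a s ha (Or.inl (Or.inr hm))) ih

theorem mem_encW {w : List ℕ} {a : Tok} (h : a ∈ encW w) : a = t1 ∨ a = tc := by
  unfold encW at h
  rw [List.mem_flatMap] at h
  obtain ⟨y, -, hy⟩ := h
  unfold encS at hy
  rw [List.mem_append] at hy
  rcases hy with hy | hy
  · exact Or.inl (List.eq_of_mem_replicate hy)
  · exact Or.inr (List.mem_singleton.1 hy)

/-- the tokens of an entry after the first one -/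
theorem mem_encE {a : Ent} {t : Tok} (h : t ∈ encW a.1 ++ tn :: List.replicate a.2 t1) :
    t ≠ tb ∧ t ≠ te := by
  rw [List.mem_append, List.mem_cons] at h
  rcases h with h | h | h
  · rcases mem_encW h with h | h <;> subst h <;> decide
  · subst h; decide
  · rw [List.eq_of_mem_replicate h]; decide

theorem mem_encEs {es : List Ent} {t : Tok} (h : t ∈ es.flatMap encE) : t ≠ tb := by
  rw [List.mem_flatMap] at h
  obtain ⟨e, -, he⟩ := h
  unfold encE at he
  rw [List.mem_cons] at he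
  rcases he with he | he
  · subst he; decide
  · exact (mem_encE he).1

/-- the blocks before -/
theorem SG.blocks (L : List Blk) (s : A3) (hm : s.m = 0) (hq : s.q = us L.length) :
    SG u z (encP L) s ⟨0, [], s.x, s.w, s.r⟩ := by
  induction L generalizing s with
  | nil =>
    have e : (⟨0, [], s.x, s.w, s.r⟩ : A3) = s := by
      rw [← hm]
      have : s.q = [] := hq
      rw [← this]
    rw [e]
    exact SG.nil u z s
  | cons b L ih =>
    have e : encP (b :: L) = encB b ++ encP L := rfl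
    rw [e]
    have h1 := T1.tb0 u z s hm L.length hq
    have h2 : SG u z (List.replicate b.1 t1 ++ b.2.flatMap encE)
        ⟨0, us L.length, s.x, s.w, s.r⟩ ⟨0, us L.length, s.x, s.w, s.r⟩ := by
      apply SG.noop
      intro a ha
      rw [List.mem_append] at ha
      refine ⟨?_, Or.inl (Or.inl rfl)⟩
      rcases ha with ha | ha
      · rw [List.eq_of_mem_replicate ha]; decide
      · exact mem_encEs ha
    exact SG.append u z (SG.cons u z h1 h2) (ih ⟨0, us L.length, s.x, s.w, s.r⟩ rfl rfl)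

/-- the entries before -/
theorem SG.entries (es : List Ent) (s : A3) (hm : s.m = 1) (hx : s.x = us es.length) :
    SG u z (es.flatMap encE) s ⟨1, s.q, [], s.w, s.r⟩ := by
  induction es generalizing s with
  | nil =>
    have e : (⟨1, s.q, [], s.w, s.r⟩ : A3) = s := by
      rw [← hm]
      have : s.x = [] := hx
      rw [← this]
    rw [e]
    exact SG.nil u z s
  | cons a es ih =>
    rw [List.flatMap_cons]
    have h1 := T1.te1 u z s hm es.length hx
    have h2 : SG u z (encW a.1 ++ tn :: List.replicate a.2 t1)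
        ⟨1, s.q, us es.length, s.w, s.r⟩ ⟨1, s.q, us es.length, s.w, s.r⟩ := by
      apply SG.noop
      intro t ht
      exact ⟨(mem_encE ht).1, Or.inr ⟨rfl, (mem_encE ht).2⟩⟩
    exact SG.append u z (SG.cons u z h1 h2) (ih ⟨1, s.q, us es.length, s.w, s.r⟩ rfl rfl)

/-- the text to write -/
theorem SG.text (l : List Tok) (hl : ∀ a ∈ l, a = t1 ∨ a = tc) (s : A3) (hm : s.m = 2) :
    SG u z l s ⟨2, s.q, s.x, l.reverse ++ s.w, s.r⟩ := by
  induction l generalizing s with
  | nil =>
    have e : (⟨2, s.q, s.x, [].reverse ++ s.w, s.r⟩ : A3) = s := by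
      rw [← hm]; rfl
    rw [e]
    exact SG.nil u z s
  | cons a l ih =>
    have h1 := T1.w2 u z a (hl a List.mem_cons_self) s hm
    have h2 := ih (fun b hb => hl b (List.mem_cons_of_mem _ hb)) ⟨2, s.q, s.x, a :: s.w, s.r⟩ rfl
    have e : (a :: l).reverse ++ s.w = l.reverse ++ a :: s.w := by simp
    rw [e]
    exact SG.cons u z h1 h2

/-- the next state -/
theorem SG.state (k : ℕ) (s : A3) (hm : s.m = 3) :
    SG u z (us k) s ⟨3, s.q, s.x, s.w, us k ++ s.r⟩ := by
  induction k generalizing s with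
  | zero =>
    have e : (⟨3, s.q, s.x, s.w, us 0 ++ s.r⟩ : A3) = s := by
      rw [← hm]; rfl
    rw [e]
    exact SG.nil u z s
  | succ k ih =>
    have h1 := T1.r3 u z s hm
    have h2 := ih ⟨3, s.q, s.x, s.w, t1 :: s.r⟩ rfl
    have e : us (k + 1) ++ s.r = us k ++ t1 :: s.r := by
      show List.replicate (k + 1) t1 ++ s.r = List.replicate k t1 ++ t1 :: s.r
      rw [List.replicate_succ', List.append_assoc]
      rfl
    rw [e]
    exact SG.cons u z h1 h2

/-- the rest -/
theorem SG.rest (es : List Ent) (L : List Blk) (s : A3) (hm : s.m = 3) (hq : s.q = []) :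
    ∃ m, SG u z (es.flatMap encE ++ encP L) s ⟨m, s.q, s.x, s.w, s.r⟩ := by
  rcases es with _ | ⟨a, es⟩
  · rcases L with _ | ⟨b, L⟩
    · exact ⟨s.m, SG.nil u z s⟩
    · exact ⟨4, SG.cons u z (T1.tb4 u z s (Or.inl hm) hq) (SG.four u z _ _ rfl hq)⟩
  · exact ⟨4, SG.cons u z (T1.te4 u z s hm) (SG.four u z _ _ rfl hq)⟩

theorem split_get {α : Type} {l : List α} {i : ℕ} {a : α} (h : l[i]? = some a) :
    l = l.take i ++ a :: l.drop (i + 1) ∧ (l.take i).length = i := by
  obtain ⟨hi, ha⟩ := List.getElem?_eq_some_iff.1 h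
  refine ⟨?_, by rw [List.length_take]; omega⟩
  rw [← ha, List.getElem_cons_drop, List.take_append_drop]

/-- the whole text -/
theorem SG.all {B : List Blk} {q i x q' : ℕ} {es : List Ent} {w : List ℕ}
    (hB : B[q]? = some (i, es)) (hes : es[x]? = some (w, q')) :
    ∃ m, SG u z (encP B) ⟨0, us q, us x, [], []⟩
      ⟨m, [], [], (encW w).reverse ++ [], us q' ++ []⟩ := by
  obtain ⟨eB, lB⟩ := split_get hB
  obtain ⟨eE, lE⟩ := split_get hes
  have eP : encP B = encP (B.take q) ++ (tb :: (us i ++ ((es.take x).flatMap encE ++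
      (te :: (encW w ++ (tn :: (us q' ++ ((es.drop (x + 1)).flatMap encE ++
        encP (B.drop (q + 1)))))))))) := by
    have e1 : encP B = encP (B.take q) ++ (encB (i, es) ++ encP (B.drop (q + 1))) := by
      conv_lhs => rw [eB]
      simp [encP]
    have e2 : encB (i, es) = tb :: (us i ++ ((es.take x).flatMap encE ++
        (te :: (encW w ++ (tn :: (us q' ++ (es.drop (x + 1)).flatMap encE)))))) := by
      unfold encB
      conv_lhs => rw [eE]
      simp [encE]
    rw [e1, e2]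
    simp
  obtain ⟨m, hrest⟩ := SG.rest u z (es.drop (x + 1)) (B.drop (q + 1))
    ⟨3, [], [], (encW w).reverse ++ [], us q' ++ []⟩ rfl rfl
  refine ⟨m, ?_⟩
  rw [eP]
  refine SG.append u z (SG.blocks u z (B.take q) ⟨0, us q, us x, [], []⟩ rfl
    (by rw [lB])) ?_
  refine SG.cons u z (T1.tb1 u z ⟨0, [], us x, [], []⟩ rfl rfl) ?_
  refine SG.append u z (SG.noop u z (us i) ⟨1, [], us x, [], []⟩ (fun a ha => ?_)) ?_
  · rw [List.eq_of_mem_replicate ha]
    exact ⟨by decide, Or.inr ⟨rfl, by decide⟩⟩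
  refine SG.append u z (SG.entries u z (es.take x) ⟨1, [], us x, [], []⟩ rfl
    (by rw [lE])) ?_
  refine SG.cons u z (T1.te2 u z ⟨1, [], [], [], []⟩ rfl rfl) ?_
  refine SG.append u z (SG.text u z (encW w) (fun a ha => mem_encW ha)
    ⟨2, [], [], [], []⟩ rfl) ?_
  refine SG.cons u z (T1.tn3 u z ⟨2, [], [], (encW w).reverse ++ [], []⟩ rfl) ?_
  exact SG.append u z (SG.state u z q' ⟨3, [], [], (encW w).reverse ++ [], []⟩ rfl) hrest

theorem len_encP {B : List Blk} {q i x q' : ℕ} {es : List Ent} {w : List ℕ}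
    (hB : B[q]? = some (i, es)) (hes : es[x]? = some (w, q')) :
    (encW w).length + q' ≤ (encP B).length := by
  obtain ⟨eB, -⟩ := split_get hB
  obtain ⟨eE, -⟩ := split_get hes
  have h1 : (encB (i, es)).length ≤ (encP B).length := by
    conv_rhs => rw [eB]
    simp only [encP, List.flatMap_append, List.flatMap_cons, List.length_append]
    omega
  have h2 : (encW w).length + q' ≤ (encB (i, es)).length := by
    unfold encB
    conv_rhs => rw [eE]
    simp only [encE, List.flatMap_append, List.flatMap_cons, List.length_append,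
      List.length_cons, List.length_replicate]
    omega
  omega

theorem pf_P3 : T_P3 := by
  intro v u z B q i x q' es w hB hes hprg hprg' hq hx hw hw' hr
  obtain ⟨zb, hzb⟩ : ∃ zb : Nw → List Tok, zb = update z .prg [] := ⟨_, rfl⟩
  obtain ⟨m, hSG⟩ := SG.all u zb hB hes
  obtain ⟨v1, hv1, -, h1⟩ := hSG (v.sm 0) [] rfl
  have e0 : zz zb [] ⟨0, us q, us x, [], []⟩ = update z .prg [] := by
    funext k
    cases k <;> simp [update, zz, hzb, hprg', hq, hx, hw, hr]
  rw [e0] at h1
  have h2 := sp_lp hprg h1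
  obtain ⟨z1, hz1⟩ : ∃ z1 : Nw → List Tok, z1 = zz zb ((encP B).reverse ++ [])
    ⟨m, [], [], (encW w).reverse ++ [], us q' ++ []⟩ := ⟨_, rfl⟩
  rw [← hz1] at h2
  obtain ⟨s1, h3⟩ := sp_mv v1 u z1 (y := .prg') (y' := .prg) (by decide)
  obtain ⟨z2, hz2⟩ : ∃ z2 : Nw → List Tok, z2 =
    update (update z1 .prg' []) .prg ((z1 .prg').reverse ++ z1 .prg) := ⟨_, rfl⟩
  rw [← hz2] at h3
  obtain ⟨s2, h4⟩ := sp_mv (v1.sr s1) u z2 (y := .w) (y' := .w') (by decide)
  obtain ⟨z3, hz3⟩ : ∃ z3 : Nw → List Tok, z3 =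
    update (update z2 .w []) .w' ((z2 .w).reverse ++ z2 .w') := ⟨_, rfl⟩
  rw [← hz3] at h4
  obtain ⟨s3, h5⟩ := sp_mv ((v1.sr s1).sr s2) u z3 (y := .rr) (y' := .q) (by decide)
  obtain ⟨z4, hz4⟩ : ∃ z4 : Nw → List Tok, z4 =
    update (update z3 .rr []) .q ((z3 .rr).reverse ++ z3 .q) := ⟨_, rfl⟩
  rw [← hz4] at h5
  have e4 : z4 = update (update (update z .x []) .w' (encW w)) .q (us q') := by
    rw [hz4, hz3, hz2, hz1, hzb]
    funext k
    cases k <;> simp [update, zz, hprg, hprg', hw, hw', hr]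
  have l1 : (z1 .prg').length = (encP B).length := by
    rw [hz1]
    simp [zz]
  have l2 : (z2 .w).length = (encW w).length := by
    rw [hz2, hz1]
    simp [update, zz]
  have l3 : (z3 .rr).length = q' := by
    rw [hz3, hz2, hz1]
    simp [update, zz]
  have l4 := len_encP hB hes
  rw [e4] at h5
  refine ⟨(((v1.sr s1).sr s2).sr s3), hv1, ?_⟩
  refine (Spec.seq (sp_smode v u z 0) (Spec.seq h2 (Spec.seq h3 (Spec.seq h4 h5)))).mono ?_
  rw [l1, l2, l3]
  omega

end Pool.Agent.H33.KT
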